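import Pool.Agent.TH319.ComplexCase
import Pool.Agent.TH319.RealPartner

/-!
# Isometric homogeneity without separability, tested on small subspaces

An infinite-dimensional real or complex Banach space of any density character is isometric to a
Hilbert space if and only if any two of its separable closed infinite-dimensional subspaces are
isometric, and it is enough that any two vectors lie in a separable closed subspace `Z` which is
isometric to all closed infinite-dimensional subspaces of one closed infinite-dimensional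
subspace of `Z`. The proof reduces this to the separable theorem of the starting library.
-/

set_option autoImplicit false

namespace Pool.Agent.Results.MP_df72c7_an.AllDensities

open Module Pool.Agent.TH319

universe u

/-- `X` is linearly isometric to the Hilbert space `ℓ²(ι)` for some index set `ι`. -/
def IsHilbert (𝕜 : Type) (X : Type u) [RCLike 𝕜] [NormedAddCommGroup X] [NormedSpace 𝕜 X] :
    Prop :=
  ∃ ι : Type u, Nonempty (X ≃ₗᵢ[𝕜] lp (fun _ : ι => 𝕜) 2)

/-- Any two separable closed infinite-dimensional subspaces of `X` are linearly isometric. -/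
def SeparableIso (𝕜 : Type) (X : Type u) [RCLike 𝕜] [NormedAddCommGroup X] [NormedSpace 𝕜 X] :
    Prop :=
  ∀ Y Z : Submodule 𝕜 X, IsClosed (Y : Set X) → IsClosed (Z : Set X) →
    TopologicalSpace.SeparableSpace Y → TopologicalSpace.SeparableSpace Z →
    ¬ FiniteDimensional 𝕜 Y → ¬ FiniteDimensional 𝕜 Z → Nonempty (Y ≃ₗᵢ[𝕜] Z)

/-- Any two vectors of `X` lie in a separable closed subspace `Z` such that, for some closed
infinite-dimensional subspace `Y₀` of `Z`, all closed infinite-dimensional subspaces of `Y₀` are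
linearly isometric to `Z`. -/
def TwoVectorTest (𝕜 : Type) (X : Type u) [RCLike 𝕜] [NormedAddCommGroup X]
    [NormedSpace 𝕜 X] : Prop :=
  ∀ x y : X, ∃ Z Y₀ : Submodule 𝕜 X, x ∈ Z ∧ y ∈ Z ∧ IsClosed (Z : Set X) ∧
    TopologicalSpace.SeparableSpace Z ∧ Y₀ ≤ Z ∧ IsClosed (Y₀ : Set X) ∧
    ¬ FiniteDimensional 𝕜 Y₀ ∧ ∀ Y : Submodule 𝕜 X, Y ≤ Y₀ → IsClosed (Y : Set X) →
      ¬ FiniteDimensional 𝕜 Y → Nonempty (Z ≃ₗᵢ[𝕜] Y)

section

variable {𝕜 : Type} [RCLike 𝕜] {X : Type u} [NormedAddCommGroup X] [NormedSpace 𝕜 X]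

/-- the parallelogram identity -/
def Para (X : Type u) [NormedAddCommGroup X] : Prop :=
  ∀ x y : X, ‖x + y‖ * ‖x + y‖ + ‖x - y‖ * ‖x - y‖ = 2 * (‖x‖ * ‖x‖ + ‖y‖ * ‖y‖)

theorem para_of_iso {ι : Type*} (e : X ≃ₗᵢ[𝕜] lp (fun _ : ι => 𝕜) 2) : Para X := by
  intro x y
  have h := parallelogram_law_with_norm 𝕜 (e x) (e y)
  rw [← map_add, ← map_sub, e.norm_map, e.norm_map, e.norm_map, e.norm_map] at h
  simp only [pow_two] at h
  exact h

theorem hilbert_of_para [CompleteSpace X] (h : Para X) : IsHilbert 𝕜 X := by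
  let _ : InnerProductSpace 𝕜 X := InnerProductSpace.ofNorm 𝕜 h
  obtain ⟨w, b, _⟩ := exists_hilbertBasis 𝕜 X
  exact ⟨w, ⟨b.repr⟩⟩

theorem sub_l2 [CompleteSpace X] (h : Para X) (Y : Submodule 𝕜 X) (hYc : IsClosed (Y : Set X))
    (hYs : TopologicalSpace.SeparableSpace Y) (hYi : ¬ FiniteDimensional 𝕜 Y) :
    Nonempty (Y ≃ₗᵢ[𝕜] lp (fun _ : ℕ => 𝕜) 2) := by
  have : CompleteSpace Y := hYc.completeSpace_coe
  exact l2_of_parallelogram hYi fun x y => h x y

theorem separableIso_of_para [CompleteSpace X] (h : Para X) : SeparableIso 𝕜 X := by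
  intro Y Z hYc hZc hYs hZs hYi hZi
  obtain ⟨e⟩ := sub_l2 h Y hYc hYs hYi
  obtain ⟨f⟩ := sub_l2 h Z hZc hZs hZi
  exact ⟨e.trans f.symm⟩

/-- a separable closed infinite-dimensional subspace containing two given vectors -/
theorem exists_sub (hinf : ¬ FiniteDimensional 𝕜 X) (x y : X) : ∃ Z : Submodule 𝕜 X,
    x ∈ Z ∧ y ∈ Z ∧ IsClosed (Z : Set X) ∧ TopologicalSpace.SeparableSpace Z ∧
      ¬ FiniteDimensional 𝕜 Z := by
  have hI : Infinite (Basis.ofVectorSpaceIndex 𝕜 X) := by
    by_contra hfin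
    rw [not_infinite_iff_finite] at hfin
    exact hinf (Basis.ofVectorSpace 𝕜 X).finiteDimensional_of_finite
  let b := Basis.ofVectorSpace 𝕜 X
  let z : ℕ → X := fun n => b (Infinite.natEmbedding _ n)
  have hz : LinearIndependent 𝕜 z :=
    b.linearIndependent.comp _ (Infinite.natEmbedding _).injective
  let S : Set X := {x, y} ∪ Set.range z
  have hS : S.Countable := (Set.to_countable _).union (Set.countable_range z)
  refine ⟨(Submodule.span 𝕜 S).topologicalClosure, ?_, ?_,
    Submodule.isClosed_topologicalClosure _, ?_, ?_⟩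
  · exact Submodule.le_topologicalClosure _ (Submodule.subset_span (Or.inl (by simp)))
  · exact Submodule.le_topologicalClosure _ (Submodule.subset_span (Or.inl (by simp)))
  · have h1 : TopologicalSpace.IsSeparable ((Submodule.span 𝕜 S : Submodule 𝕜 X) : Set X) :=
      hS.isSeparable.span
    exact h1.closure.separableSpace
  · exact inf_of_linearIndependent' hz fun n =>
      Submodule.le_topologicalClosure _ (Submodule.subset_span (Or.inr ⟨n, rfl⟩))

theorem test_of_separableIso (hinf : ¬ FiniteDimensional 𝕜 X) (h : SeparableIso 𝕜 X) :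
    TwoVectorTest 𝕜 X := by
  intro x y
  obtain ⟨Z, hx, hy, hc, hs, hi⟩ := exists_sub hinf x y
  refine ⟨Z, Z, hx, hy, hc, hs, le_rfl, hc, hi, ?_⟩
  intro Y hY hYc hYi
  have h1 : TopologicalSpace.IsSeparable (Z : Set X) := by
    have := (TopologicalSpace.IsSeparable.of_separableSpace (Set.univ : Set Z)).image
      continuous_subtype_val
    simpa using this
  have h2 : TopologicalSpace.SeparableSpace Y :=
    (h1.mono (show (Y : Set X) ⊆ (Z : Set X) from hY)).separableSpace
  exact h Z Y hc hYc hs h2 hi hYi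

theorem para_of_test [CompleteSpace X]
    (hcase : ∀ (E : Type u) [NormedAddCommGroup E] [NormedSpace 𝕜 E] [CompleteSpace E]
      [TopologicalSpace.SeparableSpace E], ¬ FiniteDimensional 𝕜 E → Homog 𝕜 E →
      Nonempty (E ≃ₗᵢ[𝕜] lp (fun _ : ℕ => 𝕜) 2))
    (h : TwoVectorTest 𝕜 X) : Para X := by
  intro x y
  obtain ⟨Z, Y₀, hx, hy, hZc, hZs, hle, hYc, hYi, hiso⟩ := h x y
  obtain ⟨e0⟩ := hiso Y₀ le_rfl hYc hYi
  have hcomp : CompleteSpace Y₀ := hYc.completeSpace_coe
  have hsep : TopologicalSpace.SeparableSpace Y₀ :=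
    e0.toHomeomorph.isQuotientMap.separableSpace
  have hhom : Homog 𝕜 Y₀ := by
    intro Y hY1 hY2
    have h1 : CI (Y.map Y₀.subtype) := CI.map hYc ⟨hY1, hY2⟩
    obtain ⟨e1⟩ := hiso _ (Submodule.map_subtype_le Y₀ Y) h1.closed h1.inf
    exact ⟨(e0.symm.trans e1).trans (mapIso Y₀ Y).symm⟩
  obtain ⟨e2⟩ := hcase Y₀ hYi hhom
  exact para_of_iso (e0.trans e2) ⟨x, hx⟩ ⟨y, hy⟩

theorem main [CompleteSpace X]
    (hcase : ∀ (E : Type u) [NormedAddCommGroup E] [NormedSpace 𝕜 E] [CompleteSpace E]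
      [TopologicalSpace.SeparableSpace E], ¬ FiniteDimensional 𝕜 E → Homog 𝕜 E →
      Nonempty (E ≃ₗᵢ[𝕜] lp (fun _ : ℕ => 𝕜) 2))
    (hinf : ¬ FiniteDimensional 𝕜 X) :
    List.TFAE [IsHilbert 𝕜 X, SeparableIso 𝕜 X, TwoVectorTest 𝕜 X] ∧
      ((∀ Y : Submodule 𝕜 X, IsClosed (Y : Set X) → ¬ FiniteDimensional 𝕜 Y →
        Nonempty (X ≃ₗᵢ[𝕜] Y)) ↔ Nonempty (X ≃ₗᵢ[𝕜] lp (fun _ : ℕ => 𝕜) 2)) := by
  refine ⟨?_, ?_, ?_⟩
  · tfae_have 1 → 2 := by
      rintro ⟨ι, ⟨e⟩⟩
      exact separableIso_of_para (para_of_iso e)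
    tfae_have 2 → 3 := test_of_separableIso hinf
    tfae_have 3 → 1 := fun h => hilbert_of_para (para_of_test hcase h)
    tfae_finish
  · intro h
    obtain ⟨Z, _, _, hc, hs, hi⟩ := exists_sub hinf 0 0
    obtain ⟨e⟩ := h Z hc hi
    have hsep : TopologicalSpace.SeparableSpace X := 
      e.symm.toHomeomorph.isQuotientMap.separableSpace
    exact hcase X hinf h
  · rintro ⟨e⟩ Y hYc hYi
    have hl : TopologicalSpace.SeparableSpace X := by
      obtain ⟨Z, _, _, hc, hs, hi⟩ := exists_sub hinf 0 0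
      obtain ⟨f⟩ := sub_l2 (para_of_iso e) Z hc hs hi
      exact (f.trans e.symm).toHomeomorph.isQuotientMap.separableSpace
    obtain ⟨f⟩ := sub_l2 (para_of_iso e) Y hYc
      (TopologicalSpace.IsSeparable.of_separableSpace _).separableSpace hYi
    exact ⟨e.trans f.symm⟩

end

/-- **Isometric homogeneity without separability.** For every infinite-dimensional Banach space
`X` over the real or the complex numbers the following are equivalent: `X` is isometric to a
Hilbert space `ℓ²(ι)`; any two separable closed infinite-dimensional subspaces of `X` are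
isometric; any two vectors of `X` lie in a separable closed subspace `Z` which is isometric to
all closed infinite-dimensional subspaces of some closed infinite-dimensional subspace of `Z`.
Moreover `X` is isometric to each of its closed infinite-dimensional subspaces if and only if
`X` is isometric to `ℓ²(ℕ)`. -/
theorem result :
    (∀ (X : Type u) [NormedAddCommGroup X] [NormedSpace ℝ X] [CompleteSpace X],
      ¬ FiniteDimensional ℝ X →
      List.TFAE [IsHilbert ℝ X, SeparableIso ℝ X, TwoVectorTest ℝ X] ∧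
      ((∀ Y : Submodule ℝ X, IsClosed (Y : Set X) → ¬ FiniteDimensional ℝ Y →
        Nonempty (X ≃ₗᵢ[ℝ] Y)) ↔ Nonempty (X ≃ₗᵢ[ℝ] lp (fun _ : ℕ => ℝ) 2))) ∧
    (∀ (X : Type u) [NormedAddCommGroup X] [NormedSpace ℂ X] [CompleteSpace X],
      ¬ FiniteDimensional ℂ X →
      List.TFAE [IsHilbert ℂ X, SeparableIso ℂ X, TwoVectorTest ℂ X] ∧
      ((∀ Y : Submodule ℂ X, IsClosed (Y : Set X) → ¬ FiniteDimensional ℂ Y →
        Nonempty (X ≃ₗᵢ[ℂ] Y)) ↔ Nonempty (X ≃ₗᵢ[ℂ] lp (fun _ : ℕ => ℂ) 2))) :=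
  ⟨fun _ _ _ _ hinf => main (fun _ _ _ _ _ h1 h2 => real_case h1 h2) hinf,
    fun _ _ _ _ hinf => main (fun _ _ _ _ _ h1 h2 => complex_case h1 h2) hinf⟩

end Pool.Agent.Results.MP_df72c7_an.AllDensities
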